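import Pool.Agent.Helper51.AJ.Defs

/-!
# Project AJ (MP_d63854_co): basic lemmas
-/

set_option autoImplicit false

namespace Pool.Agent.Helper51.AJ

variable {V W : Type}

theorem tch_symm {B : SimpleGraph V} {S T : Set V} (h : Tch B S T) : Tch B T S := by
  obtain ⟨x, hx, y, hy, h⟩ := h
  exact ⟨y, hy, x, hx, h.symm⟩

theorem tch_mono {B : SimpleGraph V} {S T S' T' : Set V} (h : Tch B S T) (hS : S ⊆ S') (hT : T ⊆ T') :
    Tch B S' T' := by
  obtain ⟨x, hx, y, hy, h⟩ := h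
  exact ⟨x, hS hx, y, hT hy, h⟩

theorem con_nonempty {B : SimpleGraph V} {S : Set V} (h : Con B S) : S.Nonempty := by
  obtain ⟨x⟩ := h.nonempty
  exact ⟨x.1, x.2⟩

theorem con_singleton (B : SimpleGraph V) (x : V) : Con B {x} := by
  have : Subsingleton ({x} : Set V) := Set.subsingleton_coe _ |>.2 Set.subsingleton_singleton
  have : Nonempty ({x} : Set V) := ⟨⟨x, rfl⟩⟩
  exact ⟨SimpleGraph.Preconnected.of_subsingleton⟩

theorem con_pair {B : SimpleGraph V} {x y : V} (h : B.Adj x y) : Con B {x, y} :=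
  B.induce_pair_connected_of_adj h

theorem con_union {B : SimpleGraph V} {S T : Set V} (hS : Con B S) (hT : Con B T) (h : Tch B S T) :
    Con B (S ∪ T) := by
  obtain ⟨x, hx, y, hy, h⟩ := h
  exact B.connected_induce_union hS.preconnected hT.preconnected hx hy h

theorem con_univ {B : SimpleGraph V} : Con B Set.univ ↔ B.Connected :=
  SimpleGraph.Iso.connected_iff (SimpleGraph.induceUnivIso B)

/-- how to give a minor model of `gr n L` -/
theorem isMinor_gr {B : SimpleGraph V} {n : ℕ} {L : List (ℕ × ℕ)} (φ : Fin n → Set V) (hcon : ∀ i, Con B (φ i))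
    (hdis : ∀ i j, i < j → Disjoint (φ i) (φ j))
    (hadj : ∀ p ∈ L, ∀ (h1 : p.1 < n) (h2 : p.2 < n), Tch B (φ ⟨p.1, h1⟩) (φ ⟨p.2, h2⟩)) : IsMinor (gr n L) B := by
  refine ⟨φ, hcon, ?_, ?_⟩
  · intro i j hij
    rcases lt_or_gt_of_ne hij with h | h
    · exact hdis i j h
    · exact (hdis j i h).symm
  · rintro i j ⟨_, h | h⟩
    · exact hadj _ h i.2 j.2
    · exact tch_symm (hadj _ h j.2 i.2)

/-- how to use a minor model of `gr n L` -/
theorem isMinor_gr' {B : SimpleGraph V} {n : ℕ} {L : List (ℕ × ℕ)} (h : IsMinor (gr n L) B) :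
    ∃ φ : Fin n → Set V, (∀ i, Con B (φ i)) ∧ (∀ i j, i ≠ j → Disjoint (φ i) (φ j)) ∧
      ∀ i j : Fin n, i ≠ j → ((i : ℕ), (j : ℕ)) ∈ L → Tch B (φ i) (φ j) := by
  obtain ⟨φ, h1, h2, h3⟩ := h
  exact ⟨φ, h1, h2, fun i j hij h => h3 i j ⟨hij, Or.inl h⟩⟩

theorem NF.swap {B : SimpleGraph V} {u v : V} {W : Fin 3 → Set V} (h : NF B u v W) : NF B v u W where
  ne := h.ne.symm
  con := h.con
  dis := h.dis
  nu := h.nv
  nv := h.nu
  cov z := by
    rcases h.cov z with h | h | h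
    · exact Or.inr (Or.inl h)
    · exact Or.inl h
    · exact Or.inr (Or.inr h)
  au := h.av
  av := h.au
  min i S hS hc hu hv := h.min i S hS hc hv hu

theorem NF.perm {B : SimpleGraph V} {u v : V} {W : Fin 3 → Set V} (h : NF B u v W) (σ : Equiv.Perm (Fin 3)) :
    NF B u v (fun i => W (σ i)) where
  ne := h.ne
  con i := h.con _
  dis i j hij := h.dis _ _ fun he => hij (σ.injective he)
  nu i := h.nu _
  nv i := h.nv _
  cov z := by
    rcases h.cov z with h | h | ⟨i, h⟩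
    · exact Or.inl h
    · exact Or.inr (Or.inl h)
    · exact Or.inr (Or.inr ⟨σ.symm i, by simpa using h⟩)
  au i := h.au _
  av i := h.av _
  min i S hS hc hu hv := h.min _ S hS hc hu hv

theorem isMinor_refl (G : SimpleGraph V) : IsMinor G G :=
  ⟨fun v => {v}, fun v => con_singleton G v, fun _ _ h => Set.disjoint_singleton.2 h,
    fun v w h => ⟨v, rfl, w, rfl, h⟩⟩

theorem isMinor_of_hom {H : SimpleGraph W} {G : SimpleGraph V} (f : W → V) (hf : Function.Injective f)
    (h : ∀ a b, H.Adj a b → G.Adj (f a) (f b)) : IsMinor H G :=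
  ⟨fun v => {f v}, fun v => con_singleton G _, fun _ _ hne => Set.disjoint_singleton.2 (hf.ne hne),
    fun v w hvw => ⟨f v, rfl, f w, rfl, h v w hvw⟩⟩

theorem isMinor_of_iso {H : SimpleGraph W} {G : SimpleGraph V} (e : H ≃g G) : IsMinor H G :=
  isMinor_of_hom e e.injective fun _ _ h => e.map_adj_iff.2 h

theorem isMinor_induce (G : SimpleGraph V) (s : Set V) : IsMinor (G.induce s) G :=
  isMinor_of_hom (fun x => x.1) Subtype.val_injective fun _ _ h => h

theorem mod_univ {H : SimpleGraph W} {G : SimpleGraph V} : Mod H G Set.univ ↔ IsMinor H G :=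
  ⟨fun ⟨φ, _, h⟩ => ⟨φ, h⟩, fun ⟨φ, h⟩ => ⟨φ, fun _ => Set.subset_univ _, h⟩⟩

end Pool.Agent.Helper51.AJ
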