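import Pool.Agent.Helper51.AJ.St
import Pool.Agent.Helper51.AJ.Basic

/-!
# Project AJ (MP_d63854_co), module FCO: the elementary minors of the excluded minors are apex
-/

set_option autoImplicit false

namespace Pool.Agent.Helper51.AJ

private def e1A : Fin 6 → Fin 6 → Bool := fun a b => decide (((a : ℕ), (b : ℕ)) ∈ ([(0, 1), (0, 2), (0, 3), (0, 4), (0, 5), (1, 2), (1, 3), (1, 4), (1, 5), (2, 3), (2, 4), (2, 5), (3, 4), (3, 5), (4, 5)] : List (ℕ × ℕ)))

private def e2A : Fin 7 → Fin 7 → Bool := fun a b => decide (((a : ℕ), (b : ℕ)) ∈ ([(0, 1), (0, 2), (0, 3), (0, 4), (0, 5), (0, 6), (1, 4), (1, 5), (1, 6), (2, 4), (2, 5), (2, 6), (3, 4), (3, 5), (3, 6)] : List (ℕ × ℕ)))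

private def e3A : Fin 7 → Fin 7 → Bool := fun a b => decide (((a : ℕ), (b : ℕ)) ∈ ([(0, 3), (0, 4), (0, 5), (0, 6), (1, 3), (1, 4), (1, 5), (1, 6), (2, 3), (2, 4), (2, 5), (2, 6), (3, 4), (3, 5), (4, 5)] : List (ℕ × ℕ)))

private def e4A : Fin 8 → Fin 8 → Bool := fun a b => decide (((a : ℕ), (b : ℕ)) ∈ ([(0, 2), (0, 3), (0, 4), (0, 5), (0, 6), (0, 7), (1, 2), (1, 3), (1, 4), (1, 5), (1, 6), (1, 7), (2, 3), (2, 4), (2, 6), (3, 5), (3, 7), (4, 5), (4, 6), (5, 7), (6, 7)] : List (ℕ × ℕ)))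

private def k5A : Fin 5 → Fin 5 → Bool := fun a b => decide (((a : ℕ), (b : ℕ)) ∈ ([(0, 1), (0, 2), (0, 3), (0, 4), (1, 2), (1, 3), (1, 4), (2, 3), (2, 4), (3, 4)] : List (ℕ × ℕ)))

private def k33A : Fin 6 → Fin 6 → Bool := fun a b => decide (((a : ℕ), (b : ℕ)) ∈ ([(0, 3), (0, 4), (0, 5), (1, 3), (1, 4), (1, 5), (2, 3), (2, 4), (2, 5)] : List (ℕ × ℕ)))

private theorem c1 : elem apx e1A = true := by decide +kernel

private theorem c2 : elem apx e2A = true := by decide +kernel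

private theorem c3 : elem apx e3A = true := by decide +kernel

private theorem c4 : elem apx e4A = true := by decide +kernel

private theorem c5 : elem plan k5A = true := by decide +kernel

private theorem c6 : elem plan k33A = true := by decide +kernel

instance {n : ℕ} (A : Fin n → Fin n → Bool) : DecidableRel (ga A).Adj := fun a b =>
  inferInstanceAs (Decidable (a ≠ b ∧ (A a b = true ∨ A b a = true)))

private def i1 : E1 ≃g ga e1A := ⟨Equiv.refl _, fun {a b} => by revert a b; decide +kernel⟩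

private def f2 : Fin 1 ⊕ (Fin 3 ⊕ Fin 3) ≃ Fin 7 :=
  (Equiv.sumCongr (Equiv.refl (Fin 1)) (finSumFinEquiv : Fin 3 ⊕ Fin 3 ≃ Fin (3 + 3))).trans finSumFinEquiv

private def f3 : Fin 3 ⊕ (Fin 3 ⊕ Fin 1) ≃ Fin 7 :=
  (Equiv.sumCongr (Equiv.refl (Fin 3)) (finSumFinEquiv : Fin 3 ⊕ Fin 1 ≃ Fin (3 + 1))).trans finSumFinEquiv

private def f4 : Fin 2 ⊕ (Fin 3 × Fin 2) ≃ Fin 8 :=
  (Equiv.sumCongr (Equiv.refl (Fin 2)) (finProdFinEquiv : Fin 3 × Fin 2 ≃ Fin (3 * 2))).trans finSumFinEquiv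

private def i2 : E2 ≃g ga e2A := ⟨f2, fun {a b} => by revert a b; decide +kernel⟩

private def i3 : E3 ≃g ga e3A := ⟨f3, fun {a b} => by revert a b; decide +kernel⟩

private def i4 : E4 ≃g ga e4A := ⟨f4, fun {a b} => by revert a b; decide +kernel⟩

private def i5 : (⊤ : SimpleGraph (Fin 5)) ≃g ga k5A := ⟨Equiv.refl _, fun {a b} => by revert a b; decide +kernel⟩

private def i6 : completeBipartiteGraph (Fin 3) (Fin 3) ≃g ga k33A :=
  ⟨(finSumFinEquiv : Fin 3 ⊕ Fin 3 ≃ Fin (3 + 3)), fun {a b} => by revert a b; decide +kernel⟩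

theorem hFCO (h1 : StTrn) (_h2 : StJnm) (h3 : StFex) : StFco := by
  have key : ∀ {V : Type} {G : SimpleGraph V} {n : ℕ} {A : Fin n → Fin n → Bool} (_ : G ≃g ga A)
      (_ : elem apx A = true) (W : Type) [Finite W] (H : SimpleGraph W), IsMinor H G → ¬ Nonempty (H ≃g G) →
      Apex H := by
    intro V G n A e hA W _ H hH hiso
    refine (h3 n A).1 hA W H (h1.1 _ _ _ _ _ _ hH (isMinor_of_iso e)) ?_
    rintro ⟨f⟩
    exact hiso ⟨f.trans e.symm⟩
  have key2 : ∀ {V : Type} {G : SimpleGraph V} {n : ℕ} {A : Fin n → Fin n → Bool} (_ : G ≃g ga A)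
      (_ : elem plan A = true) (W : Type) [Finite W] (H : SimpleGraph W), IsMinor H G → ¬ Nonempty (H ≃g G) →
      Planar H := by
    intro V G n A e hA W _ H hH hiso
    refine (h3 n A).2 hA W H (h1.1 _ _ _ _ _ _ hH (isMinor_of_iso e)) ?_
    rintro ⟨f⟩
    exact hiso ⟨f.trans e.symm⟩
  refine ⟨fun W _ H => ⟨key i1 c1 W H, key i2 c2 W H, key i3 c3 W H, key i4 c4 W H⟩,
    fun W _ H => ⟨key2 i5 c5 W H, key2 i6 c6 W H⟩⟩

end Pool.Agent.Helper51.AJ
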