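import Pool.Agent.Helper51.AJ.St
import Pool.Agent.Helper51.AJ.Basic

/-!
# Project AJ (MP_d63854_co), module FNA: finite facts
-/

set_option autoImplicit false

namespace Pool.Agent.Helper51.AJ

/-- the list is connected (every element is adjacent to a later one, or is the last one) -/
private def cL {n : ℕ} (L : List (ℕ × ℕ)) : List (Fin n) → Bool
  | [] => false
  | x :: l => (l.isEmpty || l.any fun y => decide ((gr n L).Adj x y)) && (l.isEmpty || cL L l)

private theorem con_of_cL {n : ℕ} (L : List (ℕ × ℕ)) (l : List (Fin n)) (h : cL L l = true) :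
    Con (gr n L) {x | x ∈ l} := by
  induction l with
  | nil => simp [cL] at h
  | cons x l ih =>
    rcases l.eq_nil_or_concat with hl | hl
    · subst hl
      have : {z : Fin n | z ∈ [x]} = {x} := by ext; simp
      rw [this]
      exact con_singleton _ x
    · have hne : l ≠ [] := by
        obtain ⟨a, b, hb⟩ := hl
        rw [hb]
        simp
      have hE : l.isEmpty = false := by
        cases l with
        | nil => exact absurd rfl hne
        | cons a l => rfl
      rw [cL, hE, Bool.false_or, Bool.false_or, Bool.and_eq_true, List.any_eq_true] at h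
      obtain ⟨⟨y, hy, hxy⟩, h2⟩ := h
      have h3 := con_union (con_singleton (gr n L) x) (ih h2) ⟨x, rfl, y, hy, of_decide_eq_true hxy⟩
      have : {z : Fin n | z ∈ x :: l} = {x} ∪ {z | z ∈ l} := by ext; simp
      rw [this]
      exact h3

/-- the check of a minor model given by lists, all avoiding `v` -/
private def ck (n : ℕ) (L : List (ℕ × ℕ)) (m : ℕ) (L' : List (ℕ × ℕ)) (bs : List (List (Fin n))) : Bool :=
  ((List.finRange m).all fun i => cL L (bs.getD i [])) &&
  ((List.finRange m).all fun i => (List.finRange m).all fun j => i == j ||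
    (bs.getD i []).all fun x => !(bs.getD j []).contains x) &&
  (L'.all fun p => (bs.getD p.1 []).any fun x => (bs.getD p.2 []).any fun y => decide ((gr n L).Adj x y))

private theorem mod_of_ck (n : ℕ) (L : List (ℕ × ℕ)) (m : ℕ) (L' : List (ℕ × ℕ)) (bs : List (List (Fin n)))
    (h : ck n L m L' bs = true) (s : Set (Fin n)) (hs : ∀ i : Fin m, ∀ x ∈ bs.getD i [], x ∈ s) :
    Mod (gr m L') (gr n L) s := by
  unfold ck at h
  simp only [Bool.and_eq_true, List.all_eq_true, List.mem_finRange, forall_true_left] at h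
  obtain ⟨⟨h1, h2⟩, h3⟩ := h
  have h4 : ∀ p ∈ L', ∃ x ∈ bs.getD p.1 [], ∃ y ∈ bs.getD p.2 [], (gr n L).Adj x y := by
    intro p hp
    have := h3 p hp
    rw [List.any_eq_true] at this
    obtain ⟨x, hx, hx2⟩ := this
    rw [List.any_eq_true] at hx2
    obtain ⟨y, hy, hxy⟩ := hx2
    exact ⟨x, hx, y, hy, of_decide_eq_true hxy⟩
  refine ⟨fun i => {x | x ∈ bs.getD i []}, fun i x hx => hs i x hx, fun i => con_of_cL L _ (h1 i), ?_, ?_⟩
  · intro i j hij
    rw [Set.disjoint_left]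
    intro x hx hx2
    have := h2 i j
    rw [Bool.or_eq_true] at this
    rcases this with h | h
    · exact hij (beq_iff_eq.1 h)
    · rw [List.all_eq_true] at h
      have h5 := h x hx
      rw [Bool.not_eq_true', List.contains_eq_mem] at h5
      exact (of_decide_eq_false h5) hx2
  · rintro i j ⟨_, h | h⟩
    · exact h4 _ h
    · obtain ⟨x, hx, y, hy, hxy⟩ := h4 _ h
      exact ⟨y, hy, x, hx, hxy.symm⟩

private def k5L : List (ℕ × ℕ) := [(0,1),(0,2),(0,3),(0,4),(1,2),(1,3),(1,4),(2,3),(2,4),(3,4)]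

private def k33L : List (ℕ × ℕ) := [(0,3),(0,4),(0,5),(1,3),(1,4),(1,5),(2,3),(2,4),(2,5)]

private def ckv (n : ℕ) (L : List (ℕ × ℕ)) (v : Fin n) (c : Bool × List (List (Fin n))) : Bool :=
  (c.2.all fun l => l.all fun x => !(x == v)) && if c.1 then ck n L 5 k5L c.2 else ck n L 6 k33L c.2

private def ckall (n : ℕ) (L : List (ℕ × ℕ)) (C : List (Bool × List (List (Fin n)))) : Bool :=
  (List.finRange n).all fun v => ckv n L v (C.getD v (true, []))

private theorem nonapex (h1 : StTrn) (n : ℕ) (hn : 0 < n) (L : List (ℕ × ℕ)) (C : List (Bool × List (List (Fin n))))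
    (h : ckall n L C = true) : ¬ Apex (gr n L) := by
  have hv : ∀ v : Fin n, ¬ Planar ((gr n L).induce {v}ᶜ) := by
    intro v hpl
    unfold ckall at h
    rw [List.all_eq_true] at h
    have h2 := h v (List.mem_finRange v)
    unfold ckv at h2
    rw [Bool.and_eq_true, List.all_eq_true] at h2
    obtain ⟨h3, h4⟩ := h2
    have hs : ∀ (m : ℕ) (i : Fin m), ∀ x ∈ (C.getD v (true, [])).2.getD i [], x ∈ ({v}ᶜ : Set (Fin n)) := by
      intro m i x hx
      by_cases hi : (i : ℕ) < (C.getD v (true, [])).2.length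
      · rw [List.getD_eq_getElem _ _ hi] at hx
        have h5 := h3 _ (List.getElem_mem hi)
        rw [List.all_eq_true] at h5
        have h6 := h5 x hx
        intro hxv
        rw [Set.mem_singleton_iff] at hxv
        subst hxv
        simp at h6
      · rw [List.getD_eq_default _ _ (not_lt.1 hi)] at hx
        simp at hx
    split_ifs at h4 with hb
    · apply hpl.1
      have h5 := mod_of_ck n L 5 k5L _ h4 {v}ᶜ (hs 5)
      rw [← h1.2] at h5
      refine h1.1 _ _ _ _ _ _ ?_ h5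
      apply isMinor_of_hom id Function.injective_id
      decide
    · apply hpl.2
      have h5 := mod_of_ck n L 6 k33L _ h4 {v}ᶜ (hs 6)
      rw [← h1.2] at h5
      refine h1.1 _ _ _ _ _ _ ?_ h5
      apply isMinor_of_hom (finSumFinEquiv : Fin 3 ⊕ Fin 3 ≃ Fin (3 + 3)) (Equiv.injective _)
      decide
  rintro (h | ⟨v, h⟩)
  · have hp := hv ⟨0, hn⟩
    apply hp
    exact ⟨fun h5 => h.1 (h1.1 _ _ _ _ _ _ h5 (isMinor_induce _ _)),
      fun h5 => h.2 (h1.1 _ _ _ _ _ _ h5 (isMinor_induce _ _))⟩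
  · exact hv v h

private def e1L : List (ℕ × ℕ) := [(0, 1), (0, 2), (0, 3), (0, 4), (0, 5), (1, 2), (1, 3), (1, 4), (1, 5), (2, 3), (2, 4), (2, 5), (3, 4), (3, 5), (4, 5)]

private def e1C : List (Bool × List (List (Fin 6))) := [
  (true, [[1], [2], [3], [4], [5]]),
  (true, [[0], [2], [3], [4], [5]]),
  (true, [[0], [1], [3], [4], [5]]),
  (true, [[0], [1], [2], [4], [5]]),
  (true, [[0], [1], [2], [3], [5]]),
  (true, [[0], [1], [2], [3], [4]])]

private def e2L : List (ℕ × ℕ) := [(0, 1), (0, 2), (0, 3), (0, 4), (0, 5), (0, 6), (1, 4), (1, 5), (1, 6), (2, 4), (2, 5), (2, 6), (3, 4), (3, 5), (3, 6)]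

private def e2C : List (Bool × List (List (Fin 7))) := [
  (false, [[1], [2], [3], [4], [5], [6]]),
  (false, [[0], [2], [3], [4], [5], [6]]),
  (false, [[0], [1], [3], [4], [5], [6]]),
  (false, [[0], [1], [2], [4], [5], [6]]),
  (false, [[0], [5], [6], [1], [2], [3]]),
  (false, [[0], [4], [6], [1], [2], [3]]),
  (false, [[0], [4], [5], [1], [2], [3]])]

private def e3L : List (ℕ × ℕ) := [(0, 3), (0, 4), (0, 5), (0, 6), (1, 3), (1, 4), (1, 5), (1, 6), (2, 3), (2, 4), (2, 5), (2, 6), (3, 4), (3, 5), (4, 5)]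

private def e3C : List (Bool × List (List (Fin 7))) := [
  (true, [[2], [3], [4], [5], [6, 1]]),
  (true, [[2], [3], [4], [5], [6, 0]]),
  (true, [[1], [3], [4], [5], [6, 0]]),
  (false, [[0], [1], [2], [4], [5], [6]]),
  (false, [[0], [1], [2], [3], [5], [6]]),
  (false, [[0], [1], [2], [3], [4], [6]]),
  (false, [[0], [1], [2], [3], [4], [5]])]

private def e4L : List (ℕ × ℕ) := [(0, 2), (0, 3), (0, 4), (0, 5), (0, 6), (0, 7), (1, 2), (1, 3), (1, 4), (1, 5), (1, 6), (1, 7), (2, 3), (2, 4), (2, 6), (3, 5), (3, 7), (4, 5), (4, 6), (5, 7), (6, 7)]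

private def e4C : List (Bool × List (List (Fin 8))) := [
  (true, [[1], [6], [7], [3, 2], [5, 4]]),
  (true, [[0], [6], [7], [3, 2], [5, 4]]),
  (true, [[1], [6], [7], [3, 0], [5, 4]]),
  (true, [[1], [6], [7], [2, 0], [5, 4]]),
  (true, [[3], [5], [7], [2, 0], [6, 1]]),
  (true, [[2], [4], [6], [3, 0], [7, 1]]),
  (true, [[3], [5], [7], [2, 0], [4, 1]]),
  (true, [[2], [4], [6], [3, 0], [5, 1]])]

private def y5L : List (ℕ × ℕ) := [(0, 3), (0, 4), (0, 5), (0, 6), (0, 7), (0, 8), (1, 2), (1, 3), (1, 4), (1, 5), (1, 6), (1, 7), (1, 8), (2, 6), (6, 3), (2, 7), (7, 4), (2, 8), (8, 5), (3, 4), (3, 5), (4, 5)]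

private def y5C : List (Bool × List (List (Fin 9))) := [
  (true, [[1], [3], [6, 2], [7, 4], [8, 5]]),
  (true, [[0], [3], [6, 2], [7, 4], [8, 5]]),
  (true, [[3], [4], [6, 0], [7, 1], [8, 5]]),
  (true, [[1], [8], [6, 0], [7, 2], [5, 4]]),
  (true, [[1], [8], [7, 0], [6, 2], [5, 3]]),
  (true, [[1], [7], [8, 0], [6, 2], [4, 3]]),
  (true, [[1], [8], [3, 0], [7, 2], [5, 4]]),
  (true, [[1], [8], [4, 0], [6, 2], [5, 3]]),
  (true, [[1], [7], [5, 0], [6, 2], [4, 3]])]

private def y6L : List (ℕ × ℕ) := [(0, 3), (0, 4), (0, 5), (0, 6), (0, 7), (0, 8), (0, 9), (1, 2), (1, 3), (1, 4), (1, 5), (1, 6), (1, 7), (1, 8), (1, 9), (2, 4), (4, 5), (5, 3), (2, 6), (6, 7), (7, 3), (2, 8), (8, 9), (9, 3)]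

private def y6C : List (Bool × List (List (Fin 10))) := [
  (false, [[1], [4, 2], [7, 3], [5], [6], [9, 8]]),
  (false, [[0], [4, 2], [7, 3], [5], [6], [9, 8]]),
  (false, [[5], [7], [8], [4, 0], [6, 1], [9, 3]]),
  (false, [[4], [6], [9], [5, 0], [7, 1], [8, 2]]),
  (true, [[1], [5, 0], [6, 2], [7, 3], [9, 8]]),
  (true, [[1], [4, 0], [6, 2], [7, 3], [9, 8]]),
  (true, [[1], [7, 0], [4, 2], [5, 3], [9, 8]]),
  (true, [[1], [6, 0], [4, 2], [5, 3], [9, 8]]),
  (true, [[1], [9, 0], [4, 2], [5, 3], [7, 6]]),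
  (true, [[1], [8, 0], [4, 2], [5, 3], [7, 6]])]

private def j1L : List (ℕ × ℕ) := [(0, 2), (0, 3), (0, 4), (0, 5), (0, 6), (1, 2), (1, 3), (1, 4), (1, 5), (1, 6), (2, 3), (2, 4), (2, 5), (3, 4), (3, 5), (4, 5)]

private def j2L : List (ℕ × ℕ) := [(0, 2), (0, 3), (0, 4), (0, 5), (0, 6), (0, 7), (1, 2), (1, 3), (1, 4), (1, 5), (1, 6), (1, 7), (2, 4), (2, 5), (2, 6), (3, 4), (3, 5), (3, 6)]

private def j3L : List (ℕ × ℕ) := [(0, 2), (0, 3), (0, 4), (0, 5), (0, 6), (1, 2), (1, 3), (1, 4), (1, 5), (1, 6), (2, 3), (2, 4), (2, 5), (2, 6), (3, 4), (3, 5), (3, 6)]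

private def j4L : List (ℕ × ℕ) := [(0, 2), (0, 3), (0, 4), (0, 5), (0, 6), (0, 7), (1, 2), (1, 3), (1, 4), (1, 5), (1, 6), (1, 7), (2, 3), (3, 4), (2, 4), (5, 6), (6, 7), (5, 7), (2, 5), (3, 6), (4, 7)]

private def j1M : List (List (Fin 7)) := [[1], [2], [3], [4], [5], [6, 0]]

private def j2M : List (List (Fin 8)) := [[1], [2], [3], [7, 0], [4], [5], [6]]

private def j3M : List (List (Fin 7)) := [[2], [0], [1], [3], [4], [5], [6]]

private def j4M : List (List (Fin 8)) := [[0], [1], [2], [5], [3], [6], [4], [7]]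

private theorem apex_iso (h2 : StJnm) {V W : Type} {G : SimpleGraph V} {H : SimpleGraph W} (h : IsMinor H G)
    (hH : ¬ Apex H) : ¬ Apex G := fun hG => hH (h2.2.1 _ _ _ _ h hG)

private theorem e1 : IsMinor (gr 6 e1L) E1 := isMinor_of_hom id Function.injective_id (by decide)

private theorem e1' : IsMinor E1 (gr 6 e1L) := isMinor_of_hom id Function.injective_id (by decide)

private def f2 : Fin 1 ⊕ (Fin 3 ⊕ Fin 3) ≃ Fin 7 :=
  (Equiv.sumCongr (Equiv.refl (Fin 1)) (finSumFinEquiv : Fin 3 ⊕ Fin 3 ≃ Fin (3 + 3))).trans finSumFinEquiv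

private def f3 : Fin 3 ⊕ (Fin 3 ⊕ Fin 1) ≃ Fin 7 :=
  (Equiv.sumCongr (Equiv.refl (Fin 3)) (finSumFinEquiv : Fin 3 ⊕ Fin 1 ≃ Fin (3 + 1))).trans finSumFinEquiv

private def f4 : Fin 2 ⊕ (Fin 3 × Fin 2) ≃ Fin 8 :=
  (Equiv.sumCongr (Equiv.refl (Fin 2)) (finProdFinEquiv : Fin 3 × Fin 2 ≃ Fin (3 * 2))).trans finSumFinEquiv

private theorem e2 : IsMinor (gr 7 e2L) E2 :=
  isMinor_of_hom f2.symm f2.symm.injective (by decide +kernel)

private theorem e2' : IsMinor E2 (gr 7 e2L) :=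
  isMinor_of_hom f2 f2.injective (by decide +kernel)

private theorem e3 : IsMinor (gr 7 e3L) E3 :=
  isMinor_of_hom f3.symm f3.symm.injective (by decide +kernel)

private theorem e4 : IsMinor (gr 8 e4L) E4 :=
  isMinor_of_hom f4.symm f4.symm.injective (by decide +kernel)

private theorem e4' : IsMinor E4 (gr 8 e4L) :=
  isMinor_of_hom f4 f4.injective (by decide +kernel)

private theorem toJ (n m : ℕ) (hm : 2 + n = m) (L L' : List (ℕ × ℕ))
    (h : ∀ a b : Fin m, (gr m L').Adj a b → (jn (⊥ : SimpleGraph (Fin 2)) (gr n L)).Adj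
      (finSumFinEquiv.symm (Fin.cast hm.symm a)) (finSumFinEquiv.symm (Fin.cast hm.symm b))) :
    IsMinor (gr m L') (jn (⊥ : SimpleGraph (Fin 2)) (gr n L)) :=
  isMinor_of_hom (fun a => finSumFinEquiv.symm (Fin.cast hm.symm a))
    (fun a b hab => Fin.cast_injective _ (finSumFinEquiv.symm.injective hab)) h

private theorem iso_card {V W : Type} [Fintype V] [Fintype W] {G : SimpleGraph V} {H : SimpleGraph W}
    [DecidableRel G.Adj] [DecidableRel H.Adj] (e : G ≃g H) :
    (Finset.univ.filter fun p : V × V => G.Adj p.1 p.2).card =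
      (Finset.univ.filter fun p : W × W => H.Adj p.1 p.2).card := by
  apply Finset.card_bij (fun p _ => (e p.1, e p.2))
  · intro p hp
    simp only [Finset.mem_filter, Finset.mem_univ, true_and] at hp ⊢
    exact e.map_adj_iff.2 hp
  · intro p _ q _ h
    have h1 := (Prod.mk.injEq _ _ _ _ ▸ h : e p.1 = e q.1 ∧ e p.2 = e q.2)
    exact Prod.ext (e.injective h1.1) (e.injective h1.2)
  · intro q hq
    simp only [Finset.mem_filter, Finset.mem_univ, true_and] at hq
    refine ⟨(e.symm q.1, e.symm q.2), ?_, ?_⟩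
    · simp only [Finset.mem_filter, Finset.mem_univ, true_and]
      exact e.symm.map_adj_iff.2 hq
    · simp

private theorem mk_minor (h1 : StTrn) {n m : ℕ} (L L' : List (ℕ × ℕ)) (bs : List (List (Fin n)))
    (h : ck n L m L' bs = true) : IsMinor (gr m L') (gr n L) := by
  have := mod_of_ck n L m L' bs h Set.univ (fun _ _ _ => Set.mem_univ _)
  exact mod_univ.1 this

theorem hFNA (h1 : StTrn) (h2 : StJnm) : StFna := by
  refine ⟨⟨?_, ?_, ?_, ?_⟩, ⟨?_, ?_, ?_, ?_⟩, ?_, ?_⟩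
  · exact h1.1 _ _ _ _ _ _ e1' (h1.1 _ _ _ _ _ _ (mk_minor h1 j1L e1L j1M (by decide +kernel))
      (toJ 5 7 rfl _ j1L (by decide +kernel)))
  · exact h1.1 _ _ _ _ _ _ e2' (h1.1 _ _ _ _ _ _ (mk_minor h1 j2L e2L j2M (by decide +kernel))
      (toJ 6 8 rfl _ j2L (by decide +kernel)))
  · exact h1.1 _ _ _ _ _ _ e2' (h1.1 _ _ _ _ _ _ (mk_minor h1 j3L e2L j3M (by decide +kernel))
      (toJ 5 7 rfl _ j3L (by decide +kernel)))
  · exact h1.1 _ _ _ _ _ _ e4' (h1.1 _ _ _ _ _ _ (mk_minor h1 j4L e4L j4M (by decide +kernel))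
      (toJ 6 8 rfl _ j4L (by decide +kernel)))
  · exact apex_iso h2 e1 (nonapex h1 6 (by norm_num) e1L e1C (by decide +kernel))
  · exact apex_iso h2 e2 (nonapex h1 7 (by norm_num) e2L e2C (by decide +kernel))
  · exact apex_iso h2 e3 (nonapex h1 7 (by norm_num) e3L e3C (by decide +kernel))
  · exact apex_iso h2 e4 (nonapex h1 8 (by norm_num) e4L e4C (by decide +kernel))
  · refine ⟨gr 9 y5L, toJ 7 9 rfl _ y5L (by decide +kernel),
      nonapex h1 9 (by norm_num) y5L y5C (by decide +kernel), ?_⟩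
    rintro ⟨e⟩
    have h3 := iso_card e
    revert h3
    decide +kernel
  · refine ⟨gr 10 y6L, toJ 8 10 rfl _ y6L (by decide +kernel),
      nonapex h1 10 (by norm_num) y6L y6C (by decide +kernel), ?_⟩
    rintro ⟨e⟩
    have h3 := iso_card e
    revert h3
    decide +kernel

end Pool.Agent.Helper51.AJ
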