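import Mathlib

/-!
# Project AJ (MP_d63854_co): excluded minors of the class of apex graphs.  Definitions
-/

set_option autoImplicit false

namespace Pool.Agent.Helper51.AJ

/-- `H` is a minor of `G`: there are pairwise disjoint connected branch sets, one for every vertex of `H`, with an edge of
`G` between the branch sets of adjacent vertices of `H` -/
def IsMinor {W V : Type} (H : SimpleGraph W) (G : SimpleGraph V) : Prop :=
  ∃ φ : W → Set V, (∀ w, (G.induce (φ w)).Connected) ∧ (∀ w w', w ≠ w' → Disjoint (φ w) (φ w')) ∧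
    ∀ w w', H.Adj w w' → ∃ x ∈ φ w, ∃ y ∈ φ w', G.Adj x y

/-- planarity in Wagner's form: neither `K₅` nor `K₃,₃` is a minor -/
def Planar {V : Type} (G : SimpleGraph V) : Prop :=
  ¬ IsMinor (⊤ : SimpleGraph (Fin 5)) G ∧ ¬ IsMinor (completeBipartiteGraph (Fin 3) (Fin 3)) G

/-- apex graphs: deleting at most one vertex leaves a planar graph -/
def Apex {V : Type} (G : SimpleGraph V) : Prop := Planar G ∨ ∃ v : V, Planar (G.induce {v}ᶜ)

/-- excluded minors of the class of apex graphs: the graph is not apex, but all its minors which are not isomorphic to it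
are apex -/
def ExMinor {V : Type} (G : SimpleGraph V) : Prop :=
  ¬ Apex G ∧ ∀ (W : Type) [Finite W] (H : SimpleGraph W), IsMinor H G → ¬ Nonempty (H ≃g G) → Apex H

/-- the join of two graphs: their disjoint union together with all edges between them -/
def jn {U V : Type} (A : SimpleGraph U) (B : SimpleGraph V) : SimpleGraph (U ⊕ V) where
  Adj
    | Sum.inl a, Sum.inl b => A.Adj a b
    | Sum.inr a, Sum.inr b => B.Adj a b
    | Sum.inl _, Sum.inr _ => True
    | Sum.inr _, Sum.inl _ => True
  symm := ⟨fun x y h => by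
    rcases x with x | x <;> rcases y with y | y
    · exact A.adj_symm h
    · trivial
    · trivial
    · exact B.adj_symm h⟩
  loopless := ⟨fun x h => by
    rcases x with x | x
    · exact A.ne_of_adj h rfl
    · exact B.ne_of_adj h rfl⟩

instance {U V : Type} (A : SimpleGraph U) (B : SimpleGraph V) [DecidableRel A.Adj] [DecidableRel B.Adj] :
    DecidableRel (jn A B).Adj := fun x y => by
  rcases x with x | x <;> rcases y with y | y
  · exact inferInstanceAs (Decidable (A.Adj x y))
  · exact inferInstanceAs (Decidable True)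
  · exact inferInstanceAs (Decidable True)
  · exact inferInstanceAs (Decidable (B.Adj x y))

instance (m n : ℕ) : DecidableRel (completeBipartiteGraph (Fin m) (Fin n)).Adj := fun x y =>
  inferInstanceAs (Decidable (x.isLeft ∧ y.isRight ∨ x.isRight ∧ y.isLeft))

instance {U V : Type} (A : SimpleGraph U) (B : SimpleGraph V) [DecidableRel A.Adj] [DecidableRel B.Adj] :
    DecidableRel (A ⊕g B).Adj := fun x y => by
  rcases x with x | x <;> rcases y with y | y
  · exact decidable_of_iff (A.Adj x y) (by simp)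
  · exact isFalse (by simp)
  · exact isFalse (by simp)
  · exact decidable_of_iff (B.Adj x y) (by simp)

instance {U V : Type} [DecidableEq U] [DecidableEq V] (A : SimpleGraph U) (B : SimpleGraph V) [DecidableRel A.Adj]
    [DecidableRel B.Adj] : DecidableRel (A □ B).Adj := fun x y =>
  inferInstanceAs (Decidable (A.Adj x.1 y.1 ∧ x.2 = y.2 ∨ B.Adj x.2 y.2 ∧ x.1 = y.1))

/-- the triangular prism -/
abbrev Prism : SimpleGraph (Fin 3 × Fin 2) := (⊤ : SimpleGraph (Fin 3)) □ (⊤ : SimpleGraph (Fin 2))

/-- the excluded minor `K₆` -/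
abbrev E1 : SimpleGraph (Fin 6) := ⊤

/-- the excluded minor `K₁,₃,₃`: the join of one vertex and `K₃,₃` -/
abbrev E2 : SimpleGraph (Fin 1 ⊕ (Fin 3 ⊕ Fin 3)) := jn ⊤ (completeBipartiteGraph (Fin 3) (Fin 3))

/-- the excluded minor: the join of three isolated vertices and (a triangle and an isolated vertex) -/
abbrev E3 : SimpleGraph (Fin 3 ⊕ (Fin 3 ⊕ Fin 1)) :=
  jn ⊥ ((⊤ : SimpleGraph (Fin 3)) ⊕g (⊤ : SimpleGraph (Fin 1)))

/-- the excluded minor: the join of two isolated vertices and the triangular prism -/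
abbrev E4 : SimpleGraph (Fin 2 ⊕ (Fin 3 × Fin 2)) := jn ⊥ Prism

/-! ### auxiliary graphs (not used in the statement of the theorem) -/

/-- the graph on `{0, ..., n-1}` with the edges in the list `L` -/
def gr (n : ℕ) (L : List (ℕ × ℕ)) : SimpleGraph (Fin n) where
  Adj a b := a ≠ b ∧ (((a : ℕ), (b : ℕ)) ∈ L ∨ ((b : ℕ), (a : ℕ)) ∈ L)
  symm := ⟨fun _ _ h => ⟨h.1.symm, h.2.symm⟩⟩
  loopless := ⟨fun _ h => h.1 rfl⟩

instance (n : ℕ) (L : List (ℕ × ℕ)) : DecidableRel (gr n L).Adj := fun a b =>
  inferInstanceAs (Decidable (a ≠ b ∧ (((a : ℕ), (b : ℕ)) ∈ L ∨ ((b : ℕ), (a : ℕ)) ∈ L)))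

/-- `K₄` -/
abbrev K4 : SimpleGraph (Fin 4) := gr 4 [(0,1),(0,2),(0,3),(1,2),(1,3),(2,3)]

/-- `K₂,₃` -/
abbrev K23 : SimpleGraph (Fin 5) := gr 5 [(0,2),(0,3),(0,4),(1,2),(1,3),(1,4)]

/-- `K₄` and an isolated vertex -/
abbrev X1 : SimpleGraph (Fin 5) := gr 5 [(0,1),(0,2),(0,3),(1,2),(1,3),(2,3)]

/-- `K₂,₃` and an isolated vertex -/
abbrev X2 : SimpleGraph (Fin 6) := gr 6 [(0,2),(0,3),(0,4),(1,2),(1,3),(1,4)]

/-- `K₁,₁,₃` -/
abbrev X3 : SimpleGraph (Fin 5) := gr 5 [(0,1),(0,2),(0,3),(0,4),(1,2),(1,3),(1,4)]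

/-- the prism -/
abbrev X4 : SimpleGraph (Fin 6) := gr 6 [(0,1),(1,2),(0,2),(3,4),(4,5),(3,5),(0,3),(1,4),(2,5)]

/-- `K₄` on `0, 1, 2, 3` with the three edges at `0` subdivided -/
abbrev X5 : SimpleGraph (Fin 7) := gr 7 [(0,4),(4,1),(0,5),(5,2),(0,6),(6,3),(1,2),(1,3),(2,3)]

/-- two vertices `0, 1` joined by three paths of length three -/
abbrev X6 : SimpleGraph (Fin 8) := gr 8 [(0,2),(2,3),(3,1),(0,4),(4,5),(5,1),(0,6),(6,7),(7,1)]

/-- connected, all degrees at most two: a cycle or a path -/
def Cyc {V : Type} (B : SimpleGraph V) : Prop := B.Connected ∧ ∀ v, (B.neighborSet v).ncard ≤ 2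

/-- some element of `S` is adjacent to some element of `T` -/
def Tch {V : Type} (B : SimpleGraph V) (S T : Set V) : Prop := ∃ x ∈ S, ∃ y ∈ T, B.Adj x y

/-- the connected set `S` -/
def Con {V : Type} (B : SimpleGraph V) (S : Set V) : Prop := (B.induce S).Connected

/-- `H` is a minor of `G`, with branch sets contained in `s` -/
def Mod {W V : Type} (H : SimpleGraph W) (G : SimpleGraph V) (s : Set V) : Prop :=
  ∃ φ : W → Set V, (∀ w, φ w ⊆ s) ∧ (∀ w, (G.induce (φ w)).Connected) ∧
    (∀ w w', w ≠ w' → Disjoint (φ w) (φ w')) ∧ ∀ w w', H.Adj w w' → ∃ x ∈ φ w, ∃ y ∈ φ w', G.Adj x y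

/-- all elements of `A` are adjacent to all elements of the complement of `A` -/
def Cpl {V : Type} (G : SimpleGraph V) (A : Set V) : Prop := ∀ a ∈ A, ∀ b ∉ A, G.Adj a b

/-- normal form of a `K₂,₃` minor: two vertices `u, v` and three connected sets `W i`, each touching `u` and `v`, covering
everything, and minimal -/
structure NF {V : Type} (B : SimpleGraph V) (u v : V) (W : Fin 3 → Set V) : Prop where
  ne : u ≠ v
  con : ∀ i, Con B (W i)
  dis : ∀ i j, i ≠ j → Disjoint (W i) (W j)
  nu : ∀ i, u ∉ W i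
  nv : ∀ i, v ∉ W i
  cov : ∀ z, z = u ∨ z = v ∨ ∃ i, z ∈ W i
  au : ∀ i, Tch B {u} (W i)
  av : ∀ i, Tch B {v} (W i)
  min : ∀ i, ∀ S : Set V, S ⊆ W i → Con B S → Tch B {u} S → Tch B {v} S → S = W i

/-! ### the finite checker -/

/-- the graph on `Fin n` given by a Boolean function -/
def ga {n : ℕ} (A : Fin n → Fin n → Bool) : SimpleGraph (Fin n) where
  Adj a b := a ≠ b ∧ (A a b = true ∨ A b a = true)
  symm := ⟨fun _ _ h => ⟨h.1.symm, h.2.symm⟩⟩
  loopless := ⟨fun _ h => h.1 rfl⟩

/-- adjacency test -/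
def at2 {n : ℕ} (A : Fin n → Fin n → Bool) (a b : Fin n) : Bool := (a != b) && (A a b || A b a)

/-- contraction of `y` into `x` -/
def ctr {n : ℕ} (A : Fin n → Fin n → Bool) (x y : Fin n) : Fin n → Fin n → Bool :=
  fun a b => A a b || (a == x && at2 A y b) || (b == x && at2 A a y)

/-- deletion of the edge `x y` -/
def del {n : ℕ} (A : Fin n → Fin n → Bool) (x y : Fin n) : Fin n → Fin n → Bool :=
  fun a b => A a b && !((a == x && b == y) || (a == y && b == x))

/-- some pair of elements of `l`, in the order of `l`, satisfies `P` -/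
def anyPair {n : ℕ} (P : Fin n → Fin n → Bool) : List (Fin n) → Bool
  | [] => false
  | x :: l => l.any (P x) || anyPair P l

/-- search for a `K₅` minor in the graph induced on the list; the first argument is fuel -/
def has5 {n : ℕ} : ℕ → (Fin n → Fin n → Bool) → List (Fin n) → Bool
  | 0, _, _ => false
  | k + 1, A, l =>
    if l.length < 5 then false
    else if l.length = 5 then !(anyPair (fun x y => !(at2 A x y)) l)
    else (l.any fun x => has5 k A (l.erase x)) ||
      anyPair (fun x y => at2 A x y && has5 k (ctr A x y) (l.erase y)) l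

/-- `K₃,₃` as a spanning subgraph of the graph on a list of six vertices -/
def sub33 {n : ℕ} (A : Fin n → Fin n → Bool) : List (Fin n) → Bool
  | [] => false
  | x :: l => anyPair (fun y z => (x :: [y, z]).all fun a =>
      ((l.erase y).erase z).all fun b => at2 A a b) l

/-- search for a `K₃,₃` minor; the first argument is fuel -/
def has33 {n : ℕ} : ℕ → (Fin n → Fin n → Bool) → List (Fin n) → Bool
  | 0, _, _ => false
  | k + 1, A, l =>
    if l.length < 6 then false
    else if l.length = 6 then sub33 A l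
    else (l.any fun x => has33 k A (l.erase x)) ||
      anyPair (fun x y => at2 A x y && has33 k (ctr A x y) (l.erase y)) l

/-- planarity test -/
def plan {n : ℕ} (A : Fin n → Fin n → Bool) (l : List (Fin n)) : Bool :=
  !(has5 l.length A l) && !(has33 l.length A l)

/-- apex test -/
def apx {n : ℕ} (A : Fin n → Fin n → Bool) (l : List (Fin n)) : Bool := l.any fun c => plan A (l.erase c)

/-- all elementary minors pass the test `T` -/
def elem {n : ℕ} (T : (Fin n → Fin n → Bool) → List (Fin n) → Bool) (A : Fin n → Fin n → Bool) : Bool :=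
  ((List.finRange n).all fun x => T A ((List.finRange n).erase x)) &&
    !(anyPair (fun x y => at2 A x y &&
      !(T (ctr A x y) ((List.finRange n).erase y) && T (del A x y) (List.finRange n))) (List.finRange n))

end Pool.Agent.Helper51.AJ
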