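import Pool.Agent.Helper51.AJ.St
import Pool.Agent.Helper51.AJ.Basic

/-!
# Project AJ (MP_d63854_co): the theorem from the statements of the modules
-/

set_option autoImplicit false

namespace Pool.Agent.Helper51.AJ

private theorem ex_iso (h1 : StTrn) (h2 : StJnm) {V W : Type} [Finite V] [Finite W] {E : SimpleGraph W}
    {G : SimpleGraph V} (e : E ≃g G) (hE : ExMinor E) : ExMinor G := by
  refine ⟨fun h => hE.1 (h2.2.1 _ _ _ _ (isMinor_of_iso e) h), ?_⟩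
  intro X _ H hH hiso
  refine hE.2 X H (h1.1 _ _ _ _ _ _ hH (isMinor_of_iso e.symm)) ?_
  rintro ⟨f⟩
  exact hiso ⟨f.trans e⟩

private theorem pre_iso {V W : Type} {E : SimpleGraph W} {G : SimpleGraph V} (e : E ≃g G)
    (h : ¬ E.Preconnected) : ¬ G.Preconnected := fun hG => h ((SimpleGraph.Iso.preconnected_iff e).2 hG)

private theorem compl_pre_iso {V W : Type} {E : SimpleGraph W} {G : SimpleGraph V} (e : E ≃g G)
    (h : ¬ Eᶜ.Preconnected) : ¬ Gᶜ.Preconnected := by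
  refine pre_iso (E := Eᶜ) (G := Gᶜ) ⟨e.toEquiv, ?_⟩ h
  intro a b
  rw [SimpleGraph.compl_adj, SimpleGraph.compl_adj]
  have h1 : G.Adj (e.toEquiv a) (e.toEquiv b) ↔ E.Adj a b := e.map_adj_iff
  rw [h1, Ne, e.toEquiv.injective.eq_iff]

private theorem jn_compl {U V : Type} [Nonempty U] [Nonempty V] (A : SimpleGraph U) (B : SimpleGraph V) :
    ¬ (jn A B)ᶜ.Preconnected := by
  intro h
  have e : (jn A B)ᶜ = Aᶜ ⊕g Bᶜ := by
    ext x y
    rcases x with x | x <;> rcases y with y | y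
    · simp [jn]
    · simp [jn]
    · simp [jn]
    · simp [jn]
  rw [e] at h
  exact SimpleGraph.not_preconnected_sum h

private theorem top_compl : ¬ (E1)ᶜ.Preconnected := by
  intro h
  obtain ⟨p⟩ := h 0 1
  cases p with
  | cons h _ => simp at h

/-- the list of the seven graphs -/
def Seven {V : Type} (G : SimpleGraph V) : Prop :=
  Nonempty (E1 ≃g G) ∨ Nonempty (E2 ≃g G) ∨ Nonempty (E3 ≃g G) ∨ Nonempty (E4 ≃g G) ∨
  Nonempty ((⊤ : SimpleGraph (Fin 5)) ⊕g (⊤ : SimpleGraph (Fin 5)) ≃g G) ∨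
  Nonempty ((⊤ : SimpleGraph (Fin 5)) ⊕g completeBipartiteGraph (Fin 3) (Fin 3) ≃g G) ∨
  Nonempty (completeBipartiteGraph (Fin 3) (Fin 3) ⊕g completeBipartiteGraph (Fin 3) (Fin 3) ≃g G)

theorem fin (h1 : StTrn) (h2 : StJnm) (hFNA : StFna) (hFCO : StFco) (hASD : StAsd) (hDSA : StDsa) (hDSB : StDsb)
    (V : Type) [Finite V] (G : SimpleGraph V) :
    (ExMinor G ∧ (¬ G.Preconnected ∨ ¬ Gᶜ.Preconnected)) ↔ Seven G := by
  have n5 : ¬ Planar (⊤ : SimpleGraph (Fin 5)) := fun h => h.1 (isMinor_refl _)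
  have n33 : ¬ Planar (completeBipartiteGraph (Fin 3) (Fin 3)) := fun h => h.2 (isMinor_refl _)
  constructor
  · rintro ⟨hG, h | h⟩
    · rcases hDSA V G hG h with h | h | h
      · exact Or.inr (Or.inr (Or.inr (Or.inr (Or.inl h))))
      · exact Or.inr (Or.inr (Or.inr (Or.inr (Or.inr (Or.inl h)))))
      · exact Or.inr (Or.inr (Or.inr (Or.inr (Or.inr (Or.inr h)))))
    · rcases hASD V G hG h with h | h | h | h
      · exact Or.inl h
      · exact Or.inr (Or.inl h)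
      · exact Or.inr (Or.inr (Or.inl h))
      · exact Or.inr (Or.inr (Or.inr (Or.inl h)))
  · rintro (h | h | h | h | h | h | h) <;> obtain ⟨e⟩ := h
    · exact ⟨ex_iso h1 h2 e ⟨hFNA.2.1.1, fun W _ H => (hFCO.1 W H).1⟩, Or.inr (compl_pre_iso e top_compl)⟩
    · exact ⟨ex_iso h1 h2 e ⟨hFNA.2.1.2.1, fun W _ H => (hFCO.1 W H).2.1⟩,
        Or.inr (compl_pre_iso e (jn_compl _ _))⟩
    · exact ⟨ex_iso h1 h2 e ⟨hFNA.2.1.2.2.1, fun W _ H => (hFCO.1 W H).2.2.1⟩,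
        Or.inr (compl_pre_iso e (jn_compl _ _))⟩
    · exact ⟨ex_iso h1 h2 e ⟨hFNA.2.1.2.2.2, fun W _ H => (hFCO.1 W H).2.2.2⟩,
        Or.inr (compl_pre_iso e (jn_compl _ _))⟩
    · exact ⟨ex_iso h1 h2 e (hDSB _ _ _ _ n5 n5 fun W _ H => ⟨(hFCO.2 W H).1, (hFCO.2 W H).1⟩),
        Or.inl (pre_iso e SimpleGraph.not_preconnected_sum)⟩
    · exact ⟨ex_iso h1 h2 e (hDSB _ _ _ _ n5 n33 fun W _ H => ⟨(hFCO.2 W H).1, (hFCO.2 W H).2⟩),
        Or.inl (pre_iso e SimpleGraph.not_preconnected_sum)⟩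
    · exact ⟨ex_iso h1 h2 e (hDSB _ _ _ _ n33 n33 fun W _ H => ⟨(hFCO.2 W H).2, (hFCO.2 W H).2⟩),
        Or.inl (pre_iso e SimpleGraph.not_preconnected_sum)⟩

end Pool.Agent.Helper51.AJ
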