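import Pool.Agent.Helper51.AJ.Defs

/-!
# Project AJ (MP_d63854_co): statements of the modules

THEOREM.  The excluded minors of the class of apex graphs whose complement is disconnected are exactly four graphs: `K₆`,
`K₁,₃,₃`, `3K₁ ∨ (K₃ + K₁)` and `2K₁ ∨ (triangular prism)` (8 vertices, 21 edges); the disconnected ones are `2K₅`,
`K₅ + K₃,₃`, `2K₃,₃`.

All graphs are finite.  `Con B S`: the set `S` induces a connected subgraph (in particular `S ≠ ∅`).  `Tch B S T`: some edge from `S`
to `T`.  See `Basic.lean` for `con_union`, `con_singleton`, `isMinor_gr` (how to give a minor model of the graph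
`gr n L` on `Fin n`), `isMinor_gr'`, `NF.swap`, `NF.perm`, `isMinor_of_hom`, `isMinor_of_iso`, `mod_univ`.
-/

set_option autoImplicit false

namespace Pool.Agent.Helper51.AJ

/-! ### generalities -/

/-- TRN (no hypotheses).  Proof. (1) Branch sets `χ x = ⋃ (w ∈ φ x), ψ w`.  Connected: let `w₀ ∈ φ x`, `a ∈ ψ w₀`; show that every element of
`χ x` is reachable from `a` inside `χ x`: by induction on a walk in `F.induce (φ x)` from `w₀` to `w` (or `Relation.ReflTransGen`, or
`SimpleGraph.Reachable`/`Walk` recursion): inside `ψ w` use its connectedness, and for an edge `w w'` of `F` use the edge of `G` between `ψ w` and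
`ψ w'`.  (`SimpleGraph.induce_connected_of_patches` may help.)  Disjoint: clear.  Edges: an edge `x x'` of `H` gives an edge of `F` between
`φ x` and `φ x'`, which gives an edge of `G`.
(2) A set inside `s` is connected in `G.induce s` iff it is connected in `G`: for `T : Set s` the graphs `(G.induce s).induce T` and
`G.induce (Subtype.val '' T)` are isomorphic. -/
def StTrn : Prop :=
  (∀ (X W V : Type) (H : SimpleGraph X) (F : SimpleGraph W) (G : SimpleGraph V),
    IsMinor H F → IsMinor F G → IsMinor H G) ∧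
  (∀ (W V : Type) (H : SimpleGraph W) (G : SimpleGraph V) (s : Set V), IsMinor H (G.induce s) ↔ Mod H G s)

/-- JNM (hypothesis StTrn, in this order: `theorem hJNM (h : StTrn) : StJnm`).  Proof. (1) Branch sets `Sum.inl '' (φ a)`, `Sum.inr '' (ψ b)`;
`(jn A B).induce (Sum.inl '' S)` is isomorphic to `A.induce S`.  All pairs `inl, inr` are adjacent.
(2) If `G` is planar then `H` is planar by transitivity.  If `G.induce {v}ᶜ` is planar and `φ` are the branch sets of `H` in `G`: if `v` is in no
`φ w` then `H` is a minor of `G.induce {v}ᶜ` (StTrn (2)), so planar.  If `v ∈ φ w₀` then `H.induce {w₀}ᶜ` is a minor of `G.induce {v}ᶜ`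
(the other branch sets do not contain `v`), so planar.  (3) Planarity is inherited by minors (StTrn). -/
def StJnm : Prop :=
  (∀ (U U' V V' : Type) (A : SimpleGraph U) (A' : SimpleGraph U') (B : SimpleGraph V) (B' : SimpleGraph V'),
    IsMinor A A' → IsMinor B B' → IsMinor (jn A B) (jn A' B')) ∧
  (∀ (W V : Type) (H : SimpleGraph W) (G : SimpleGraph V), IsMinor H G → Apex G → Apex H) ∧
  (∀ (W V : Type) (H : SimpleGraph W) (G : SimpleGraph V), IsMinor H G → Planar G → Planar H)

/-! ### connected sets -/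

/-- CON (no hypotheses).  Proof. (1) A walk inside `S` from `T` to `S \ T` has a step from `T` to `S \ T`.  (2) Take `x ∈ S` at maximal distance
from `y` in the graph `B.induce S`; every other vertex has a shortest path to `y` which avoids `x`.  (Or: a spanning tree of
`B.induce S` has at least two leaves, `Connected.exists_connected_induce_compl_singleton_of_finite_nontrivial` in Mathlib gives one.)  (3) Induction on
the size of `S`.  By (2) there is `t ∈ S`, `t ≠ y`, with `S \ {t}` connected.  If `t = x`: `P = {x}`, `Q = S \ {x}`, and `{x}` touches `S \ {x}` by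
(1).  Otherwise apply the induction hypothesis to `S \ {t}`, and add `t` to `P` or to `Q` (one of them is touched by `t`, by (1) for
`T = {t}`). -/
def StCon : Prop := ∀ (V : Type) [Finite V] (B : SimpleGraph V) (S : Set V), Con B S →
  (∀ T : Set V, T ⊆ S → T.Nonempty → T ≠ S → Tch B T (S \ T)) ∧
  (∀ y ∈ S, S ≠ {y} → ∃ x ∈ S, x ≠ y ∧ Con B (S \ {x})) ∧
  (∀ x ∈ S, ∀ y ∈ S, x ≠ y → ∃ P Q : Set V, P ∪ Q = S ∧ Disjoint P Q ∧ x ∈ P ∧ y ∈ Q ∧ Con B P ∧ Con B Q ∧
    Tch B P Q)

/-- PTH (hypothesis StCon).  Minimal connected sets containing two given vertices are paths.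
Proof.  Induction on `|S|` (all `x` at once).  If `S = {y}` then `x = y` and there are no edges.  Otherwise there is `t ∈ S`, `t ≠ y`, with `S \ {t}` connected
(StCon (2)); if `t ≠ x` then `S \ {t}` contradicts minimality, so `t = x ≠ y` and `S' = S \ {x}` is connected.  `x` has a neighbour `x' ∈ S'` (StCon (1)).  It is the
only one: if `x'' ∈ S'` is another one then `S' ≠ {y}`, StCon (2) for `S', y` gives `t ∈ S'`, `t ≠ y`, `S' \ {t}` connected; it contains `x'` or `x''`, so
`{x} ∪ (S' \ {t})` is connected, contains `x, y` and is smaller than `S`, a contradiction.  `S'` is minimal for `x', y`: if `T ⊆ S'` is connected and contains `x', y` then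
`{x} ∪ T` is connected and contains `x, y`, so it is `S`, so `T = S'`.  By induction all vertices of `S'` have at most two neighbours in `S'`, and
`x'`, `y` at most one.  In `S`: `x` has the one neighbour `x'`; `x'` has at most `1 + 1` neighbours, and if `x' = y` then `S' = {y}` by minimality (`{y}` is connected and
contains `x', y`), so it has exactly one; all others have the same neighbours as before. -/
def StPth : Prop := ∀ (V : Type) [Finite V] (B : SimpleGraph V) (S : Set V) (x y : V), Con B S → x ∈ S → y ∈ S →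
  (∀ T ⊆ S, Con B T → x ∈ T → y ∈ T → T = S) →
  ∀ z ∈ S, {t | t ∈ S ∧ B.Adj z t}.ncard ≤ 2 ∧ ((z = x ∨ z = y) → {t | t ∈ S ∧ B.Adj z t}.ncard ≤ 1)

/-- DEG (hypothesis StCon).  Proof.  Induction on `|S|`.  `S = {x}`: the number is the degree of `x`.  Otherwise there is `x ∈ S` with `S' = S \ {x}` connected
(StCon (2)); let `k ≥ 1` be the number of neighbours of `x` in `S'` (StCon (1)).  The edges leaving `S` are the edges leaving `S'` except the `k` ones to `x`,
and at most `2 - k` edges from `x`: at most `2 - k + 2 - k ≤ 2`. -/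
def StDeg : Prop := ∀ (V : Type) [Finite V] (B : SimpleGraph V), (∀ v, (B.neighborSet v).ncard ≤ 2) →
  ∀ S : Set V, Con B S → {p : V × V | p.1 ∈ S ∧ p.2 ∉ S ∧ B.Adj p.1 p.2}.ncard ≤ 2

/-- ACY (hypothesis StCon).  Proof. (1) Let `T₀, T₁, T₂` be the branch sets and `e = {a, b}` an edge with `a ∈ T₀`, `b ∈ T₁`.  `e` is a bridge
(`SimpleGraph.isAcyclic_iff_forall_edge_isBridge`, `isBridge_iff`), but `a` and `b` are connected in `B` without `e` through `T₀`, `T₂`, `T₁`
(all the edges used are different from `e`): contradiction.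
(2) Some edge `x y` is not a bridge, so there is a path from `y` to `x` in `B \ e`; it has length at least two, let `z` be its penultimate
vertex (adjacent to `x` in `B \ e`, `z ≠ y`), `S` the set of its vertices except `x`: connected (the support of a walk, `Walk.connected_induce_support`), contains `y ≠ z`, not
`x`.  StCon (3) splits `S` into connected touching `P ∋ y`, `Q ∋ z`.  `{x}, P, Q` are the branch sets of a triangle.
(3) If `B` is not connected, let `c` be a vertex not reachable from `x` (exists; all vertices of the branch sets in (2) are reachable from `x`), and take `{c}` as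
the fourth branch set. -/
def StAcy : Prop := ∀ (V : Type) [Finite V] (B : SimpleGraph V),
  (B.IsAcyclic → ¬ IsMinor (⊤ : SimpleGraph (Fin 3)) B) ∧
  (¬ B.IsAcyclic → IsMinor (⊤ : SimpleGraph (Fin 3)) B) ∧
  (¬ B.IsAcyclic → ¬ B.Connected → IsMinor ((⊤ : SimpleGraph (Fin 3)) ⊕g (⊤ : SimpleGraph (Fin 1))) B)

/-! ### planarity of some joins -/

/-- PLA (no hypotheses).  Proof.  Let `φ` be a model of `K₅` in `jn ⊤ B`.  At most one branch set contains `inl 0`; the other four (at least) are sets
`Sum.inr '' S`, `S` connected in `B`, and give a model of `K₄` in `B` (`isMinor_gr`).  For `K₃,₃` the five others give a model of `K₂,₃`. -/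
def StPla : Prop := ∀ (V : Type) (B : SimpleGraph V), ¬ IsMinor K4 B → ¬ IsMinor K23 B →
  Planar (jn (⊤ : SimpleGraph (Fin 1)) B)

/-- PLB (hypotheses StCon, StDeg, StAcy).  Proof.  Let `φ` be a model of `K₅` or `K₃,₃` in `jn A B`, `A` on `Fin 2`.  At most two branch sets contain `inl 0` or
`inl 1`; let `J` be the set of the other indices, at least three for `K₅`, at least four for `K₃,₃`; for `j ∈ J`: `φ j = Sum.inr '' S j`, `S j` connected
in `B` (and `≠ ∅`).  If `j ∈ J` is adjacent to three elements of `J` then there are three edges leaving `S j`, with different ends outside: contradiction to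
StDeg.  So `|J| = 3` for `K₅`, and for `K₃,₃` `J` has exactly two elements on each side (if it has three on one side, an element of the other side is
adjacent to three elements of `J`), `|J| = 4`; in both cases exactly two indices `p, q` are not in `J`, they are adjacent in `K₅`, `K₃,₃`, and `J` is a cycle.
(1) `Cyc B`, `A = ⊥`: every `S j` has two edges to its neighbours in `J`, so by StDeg no edge leaves `U = ⋃ S j`, so `U` is everything (`B` is connected, StCon (1) for the whole
vertex set).  So `φ p, φ q` contain no `inr`, they are `{inl 0}` and `{inl 1}` in some order, and these are not adjacent: contradiction.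
(2) `B` acyclic: three pairwise touching disjoint connected sets in `B` (for `K₃,₃` unite two neighbouring sets of the 4-cycle) contradict StAcy (1). -/
def StPlb : Prop := ∀ (V : Type) [Finite V] (B : SimpleGraph V),
  (Cyc B → Planar (jn (⊥ : SimpleGraph (Fin 2)) B)) ∧
  (B.IsAcyclic → (∀ v, (B.neighborSet v).ncard ≤ 2) → Planar (jn (⊤ : SimpleGraph (Fin 2)) B))

/-! ### the structure of `B` -/

/-- K4C (hypothesis StCon).  Proof.  Let `T 0, ..., T 3` be the branch sets of `K₄`.  They cover `V`: an uncovered vertex `z` gives a model of `X1` with the fifth branch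
set `{z}`.  Claim: every `T i` is a single vertex.  Suppose `i = 0` (the other cases are the same, by symmetry of `K₄`; take the permutation into account by
proving the claim for an arbitrary model and permuting it), `T 0` has at least two elements; StCon (2) gives `x ∈ T 0` with `T' = T 0 \ {x}` connected.  `{x}` touches `T'`.  For
`j = 1, 2, 3`, `T'` or `{x}` touches `T j`.  If `T'` touches all three: model of `X1` with `T', T 1, T 2, T 3` and `{x}`.  If `T'` touches none: model of `X1` with
`{x}, T 1, T 2, T 3` and `T'`.  If `T'` touches `T 1`, `T 2` but not `T 3`: model of `K23` with `(T', T 3 | T 1, T 2, {x})`.  If `T'` touches only `T 1`: `{x}` touches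
`T 2, T 3`: model of `K23` with `({x}, T 1 | T', T 2, T 3)`.  (Up to permutations of `1, 2, 3`.)  All contradictions.
So `V` has exactly four elements, pairwise adjacent; for any `w` the graph on the other three is connected with degrees two. -/
def StK4c : Prop := ∀ (V : Type) [Finite V] (B : SimpleGraph V), IsMinor K4 B → ¬ IsMinor K23 B → ¬ IsMinor X1 B →
  ∃ w : V, Cyc (B.induce {w}ᶜ)

/-- NFO (hypothesis StCon).  Proof.  Choose a model `U, U', W 0, W 1, W 2` of `K₂,₃` with `|U| + |U'|` minimal.  The model covers `V`, since an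
uncovered vertex gives a model of `X2`.  Suppose `U` has at least two elements.  For `x ∈ U` with `U \ {x}` connected: (*) there are two indices `i` for which
`U \ {x}` does not touch `W i`.  Otherwise `U \ {x}` touches all `W j` except possibly `W i`.  If it touches `W i` too then `U \ {x}, U', W` is a smaller model.  If not,
then `{x}` touches `W i` (as `U` does), and `U \ {x}, U', W` with `W i` replaced by `W i ∪ {x}` is a smaller model (`{x}` touches `U \ {x}` by StCon (1)):
contradiction.  By StCon (2) (twice) there are two such vertices `x ≠ x'`.  By (*) some `i` works for both; but `U` touches `W i` by some `z ∈ U`, and `z ≠ x` or `z ≠ x'`: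
contradiction.  So `U = {u}`, and in the same way `U' = {v}`.  Minimality of `W i`: if `S ⊆ W i` is connected and touches `u` and `v` and `S ≠ W i`, then
replacing `W i` by `S` gives a model of `K₂,₃` with an uncovered vertex, so a model of `X2`. -/
def StNfo : Prop := ∀ (V : Type) [Finite V] (B : SimpleGraph V), IsMinor K23 B → ¬ IsMinor X2 B →
  ∃ (u v : V) (W : Fin 3 → Set V), NF B u v W

/-- ATT (hypotheses StCon, StPth).  Proof.  Let `x, x' ∈ W i` be neighbours of `u`, `x ≠ x'`, and `y ∈ W i` a neighbour of `v`.  StCon (2): some `t ∈ W i`, `t ≠ y`, with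
`W i \ {t}` connected; it contains `y` and one of `x, x'`, so it touches `u` and `v`: contradiction to `min`.  So `u` has exactly one neighbour `x` in `W i`, similarly `v` has exactly one
neighbour `y`.  If `x = y` then `{x}` touches both, so `W i = {x}`.  Degrees: `W i` is a minimal connected set containing `x` and `y` (by `min`), so by StPth every `z ∈ W i` has at
most two neighbours in `W i`, at most one if `z = x` or `z = y` and (if `x = y`) none since `W i = {x}`.  `u` is a neighbour of `z` iff `z = x`, `v` iff `z = y`. -/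
def StAtt : Prop := ∀ (V : Type) [Finite V] (B : SimpleGraph V) (u v : V) (W : Fin 3 → Set V), NF B u v W → ∀ i,
  ∃ x ∈ W i, ∃ y ∈ W i, (∀ z ∈ W i, B.Adj u z ↔ z = x) ∧ (∀ z ∈ W i, B.Adj v z ↔ z = y) ∧ (x = y → W i = {x}) ∧
    ∀ z ∈ W i, {t | B.Adj z t ∧ (t ∈ W i ∨ t = u ∨ t = v)}.ncard ≤ 2

/-- SPL (hypotheses StCon, StAtt).  Proof.  Let `x₀, y₀ ∈ W i` be the neighbours of `u`, `v` (StAtt); `x₀ ≠ y₀`, since otherwise `W i = {x₀}`.
(1) StCon (3) for `x₀ ≠ y₀`.  (2) If `x ≠ x₀`: StCon (3) for `x₀ ≠ x` gives `P ∋ x₀`, `X ∋ x`; if `y₀ ∈ P` then `P` is connected and touches `u` and `v`, so `P = W i` by `min`,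
contradiction (`x ∉ P`); so `y₀ ∈ X`, and `u` touches `P`, `v` touches `X`.  If `x = x₀` then `x ≠ y₀`: StCon (3) for `y₀ ≠ x` gives `P ∋ y₀`, `X ∋ x = x₀`.
(3) StCon (3) for `x ≠ y` gives `X ∋ x`, `Y ∋ y`; `x₀, y₀` are not both in `X` and not both in `Y` (by `min`). -/
def StSpl : Prop := ∀ (V : Type) [Finite V] (B : SimpleGraph V) (u v : V) (W : Fin 3 → Set V), NF B u v W → ∀ i,
  ¬ (W i).Subsingleton →
  (∃ P Q : Set V, P ∪ Q = W i ∧ Disjoint P Q ∧ Con B P ∧ Con B Q ∧ Tch B P Q ∧ Tch B {u} P ∧ Tch B {v} Q) ∧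
  (∀ x ∈ W i, ∃ P X : Set V, P ∪ X = W i ∧ Disjoint P X ∧ x ∈ X ∧ Con B P ∧ Con B X ∧ Tch B P X ∧
    ((Tch B {u} P ∧ Tch B {v} X) ∨ (Tch B {v} P ∧ Tch B {u} X))) ∧
  (∀ x ∈ W i, ∀ y ∈ W i, x ≠ y → ∃ X Y : Set V, X ∪ Y = W i ∧ Disjoint X Y ∧ x ∈ X ∧ y ∈ Y ∧ Con B X ∧ Con B Y ∧
    Tch B X Y ∧ ((Tch B {u} X ∧ Tch B {v} Y) ∨ (Tch B {v} X ∧ Tch B {u} Y)))

/-- THE (hypothesis StSpl).  Proof.  `W i = P i ∪ Q i` by StSpl (1); branch sets `![{u}, {v}, P 0, Q 0, P 1, Q 1, P 2, Q 2]` (`isMinor_gr`). -/
def StThe : Prop := ∀ (V : Type) [Finite V] (B : SimpleGraph V) (u v : V) (W : Fin 3 → Set V), NF B u v W →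
  (∀ i, ¬ (W i).Subsingleton) → IsMinor X6 B

/-- EDG (hypotheses StCon, StAtt).  Proof.  `{w}ᶜ = {u} ∪ W 1 ∪ {v} ∪ W 2` (`cov`, `dis`, `nu`, `nv`) is connected (`con_union`), so `B.induce {w}ᶜ` is connected.
Degrees in `B.induce {w}ᶜ`: `u` has exactly one neighbour in each of `W 1`, `W 2` (StAtt) and is not adjacent to `v`; the same for `v`; a vertex `z ∈ W 1` has no
neighbours in `W 2`, so at most two neighbours by StAtt; the same for `W 2`. -/
def StEdg : Prop := ∀ (V : Type) [Finite V] (B : SimpleGraph V) (u v w : V) (W : Fin 3 → Set V), NF B u v W →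
  W 0 = {w} → ¬ B.Adj u v → (∀ x ∈ W 1, ∀ y ∈ W 2, ¬ B.Adj x y) → Cyc (B.induce {w}ᶜ)

/-- BBA (hypothesis StSpl).  Proof.  StSpl (2) for `x ∈ W 1` gives `P, X` and for `y ∈ W 2` gives `Q, Y`.
(u,u): `u` touches `P`, `Q` and `v` touches `X`, `Y`: model of `X5` with the branch sets `![{u}, {v}, X, Y, {w}, P, Q]` (edges of `X5`: 0-4 `u w`, 4-1 `w v`,
0-5 `u P`, 5-2 `P X`, 0-6 `u Q`, 6-3 `Q Y`, 1-2 `v X`, 1-3 `v Y`, 2-3 `X Y`, by the edge `x y`).
(v,v): the same with `u` and `v` exchanged.
(u,v): `u` touches `P`, `v` touches `X`, `v` touches `Q`, `u` touches `Y`: model of `X3 = K₁,₁,₃` with `![{u} ∪ Y, {v} ∪ X, {w}, P, Q]` (0-1: `X Y`; `w` is adjacent to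
`u`, `v`; `P` touches `u`, `X`; `Q` touches `Y`, `v`).
(v,u): `v` touches `P`, `u` touches `X`, `u` touches `Q`, `v` touches `Y`: model of `X3` with `![{u} ∪ X, {v} ∪ Y, {w}, P, Q]`. -/
def StBba : Prop := ∀ (V : Type) [Finite V] (B : SimpleGraph V) (u v w : V) (W : Fin 3 → Set V), NF B u v W →
  W 0 = {w} → (∃ x ∈ W 1, ∃ y ∈ W 2, B.Adj x y) → ¬ (W 1).Subsingleton → ¬ (W 2).Subsingleton →
  IsMinor X5 B ∨ IsMinor X3 B

/-- BBB (hypothesis StSpl).  Proof.  `x` and `w` are adjacent to `u` and to `v` (`au`, `av`).  Let `y, y' ∈ W 2` be adjacent to `x`, `w`.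
Case `y = y' = z`.  StSpl (2) for `z`: `P, Z` with `z ∈ Z`.  If `u` touches `P` and `v` touches `Z`: model of `X3` with `![Z, {x, u}, {v}, P, {w}]`
(`Z` touches `x`, `v`, `P`, `w`; `{x, u}` touches `v` (by `x`), `P` (by `u`), `w` (by `u`)).  Otherwise (`v` touches `P`, `u` touches `Z`): `![Z, {x, v}, {u}, P, {w}]`.
Case `y ≠ y'`.  StSpl (3): `Y ∋ y`, `Y' ∋ y'`.  If `u` touches `Y` and `v` touches `Y'`: the prism `X4` with `![{x}, {u}, Y, {v}, {w}, Y']`
(triangles `x u Y`, `v w Y'`; `x v`, `u w`, `Y Y'`).  Otherwise: `![{x}, {v}, Y, {u}, {w}, Y']`. -/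
def StBbb : Prop := ∀ (V : Type) [Finite V] (B : SimpleGraph V) (u v w x : V) (W : Fin 3 → Set V), NF B u v W →
  W 0 = {w} → W 1 = {x} → (∃ y ∈ W 2, B.Adj x y) → (∃ y ∈ W 2, B.Adj w y) → ¬ (W 2).Subsingleton →
  IsMinor X4 B ∨ IsMinor X3 B

/-- MTH (hypotheses StK4c, StNfo, StThe, StEdg, StBba, StBbb).  Proof.  If `K₂,₃` is not a minor: StK4c.  Otherwise let `NF B u v W` (StNfo).
If `u v` is an edge: model of `X3` with `![{u}, {v}, W 0, W 1, W 2]`, contradiction.  If no `W i` is a single vertex: StThe, contradiction.  So by `NF.perm` we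
may assume `W 0 = {w}`.  If there is no edge between `W 1` and `W 2`: StEdg.  So let `x ∈ W 1`, `y ∈ W 2` be adjacent.  If both are not subsingletons: StBba,
contradiction.  By `NF.perm` (exchange 1 and 2) assume `W 1 = {x}`.  Apply StEdg to the permutation `(W 1, W 0, W 2)`: if there is no edge between `W 0` and `W 2` we are done;
so `w` is adjacent to some `y' ∈ W 2`.  If `W 2` is not a subsingleton: StBbb, contradiction.  So `W 2 = {y}`, `y' = y`.  If `w x` is an edge then `u, w, x, y` are
pairwise adjacent and `v` is a fifth vertex: model of `X1`, contradiction.  If not: StEdg for the permutation `(W 2, W 0, W 1)`. -/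
def StMth : Prop := ∀ (V : Type) [Finite V] (B : SimpleGraph V), (IsMinor K4 B ∨ IsMinor K23 B) →
  ¬ IsMinor X1 B → ¬ IsMinor X2 B → ¬ IsMinor X3 B → ¬ IsMinor X4 B → ¬ IsMinor X5 B → ¬ IsMinor X6 B →
  ∃ w : V, Cyc (B.induce {w}ᶜ)

/-! ### finite computations -/

/-- FEL (no hypotheses).  Elementary minors.  Proof.  Let `φ` be a model inside `{x | x ∈ l}`.  If some `x ∈ l` is in no `φ w`: first case.  Otherwise, if some `φ w` has at least two
elements, it contains an edge `x y` of `ga A`, we may assume `x < y`; then `φ'`, equal to `φ` except `φ' w = φ w \ {y}`, is a model in the graph `ga (ctr A x y)` with the branch sets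
in `l.erase y`: in that graph `x` is adjacent to all old neighbours (different from `x`) of `x` and of `y`; `φ w \ {y}` is connected: the map `y ↦ x`, identity elsewhere, maps walks
in `φ w` to walks in `φ w \ {y}` (up to repetitions).  Otherwise all `φ w` are single vertices `{f w}`: third case. -/
def StFel : Prop := ∀ (n : ℕ) (A : Fin n → Fin n → Bool) (l : List (Fin n)) (W : Type) (H : SimpleGraph W),
  l.Nodup → Mod H (ga A) {x | x ∈ l} →
  (∃ x ∈ l, Mod H (ga A) {z | z ∈ l.erase x}) ∨
  (∃ x ∈ l, ∃ y ∈ l, x < y ∧ at2 A x y = true ∧ Mod H (ga (ctr A x y)) {z | z ∈ l.erase y}) ∨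
  (∃ f : W → Fin n, Function.Injective f ∧ (∀ a, a ∈ l ↔ ∃ w, f w = a) ∧
    ∀ w w', H.Adj w w' → (ga A).Adj (f w) (f w'))

/-- FCK (hypothesis StFel).  The checkers are sound.  `l` sorted makes `anyPair P l` true as soon as `P x y` holds for some `x < y` in `l`.
Proof.  Induction on the fuel `k` (all `A, l` at once).  A model of `K₅` inside `l` needs `5 ≤ l.length` (five disjoint nonempty sets), and if `l.length = 5` then the first two cases of
StFel are impossible (four elements), so all pairs in `l` are adjacent.  If `l.length > 5` the third case of StFel is impossible, and the first two give `true` by induction.  The same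
for `K₃,₃`: if `l.length = 6` the third case gives a bijection `f` from `Fin 3 ⊕ Fin 3` onto `l`; the side containing the head `x` of `l` is `{x, y, z}` with `y, z` in the tail. -/
def StFck : Prop := ∀ (n : ℕ) (A : Fin n → Fin n → Bool) (l : List (Fin n)), l.Pairwise (· < ·) → plan A l = true →
  ¬ Mod (⊤ : SimpleGraph (Fin 5)) (ga A) {x | x ∈ l} ∧
  ¬ Mod (completeBipartiteGraph (Fin 3) (Fin 3)) (ga A) {x | x ∈ l}

/-- FEX (hypotheses StTrn, StJnm, StFel, StFck).  Proof.  Let `H` be a minor of `ga A`, not isomorphic to it, `l = List.finRange n` (sorted).  StFel for `l`.  First case: `H` is a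
minor of `(ga A).induce {z | z ∈ l.erase x}`.  Second case: of `(ga (ctr A x y)).induce {z | z ∈ l.erase y}`.  Third case: `f` is a bijection `W → Fin n` and `H` is (via `f`) a
subgraph of `ga A`, not all of it (not isomorphic), so some edge `x y` (`x < y`) of `ga A` is missing, and `H` is a minor of `ga (del A x y)`.  In each case `elem` says that the
graph passes the test: for `apx` there is `c` with `plan A' (l'.erase c)`, so by StFck the induced graph on `l'.erase c` is planar (StTrn (2)), so the graph induced on `l'`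
is apex, so `H` is apex (StJnm (2)); for `plan`: planar, StJnm (3). -/
def StFex : Prop := ∀ (n : ℕ) (A : Fin n → Fin n → Bool),
  (elem apx A = true → ∀ (W : Type) [Finite W] (H : SimpleGraph W), IsMinor H (ga A) →
    ¬ Nonempty (H ≃g ga A) → Apex H) ∧
  (elem plan A = true → ∀ (W : Type) [Finite W] (H : SimpleGraph W), IsMinor H (ga A) →
    ¬ Nonempty (H ≃g ga A) → Planar H)

/-- FNA (hypotheses StTrn, StJnm): finite facts, proved by explicit branch sets and `decide`.  Done by helper51. -/
def StFna : Prop :=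
  (IsMinor E1 (jn (⊥ : SimpleGraph (Fin 2)) X1) ∧ IsMinor E2 (jn (⊥ : SimpleGraph (Fin 2)) X2) ∧
    IsMinor E2 (jn (⊥ : SimpleGraph (Fin 2)) X3) ∧ IsMinor E4 (jn (⊥ : SimpleGraph (Fin 2)) X4)) ∧
  (¬ Apex E1 ∧ ¬ Apex E2 ∧ ¬ Apex E3 ∧ ¬ Apex E4) ∧
  (∃ Y : SimpleGraph (Fin 9), IsMinor Y (jn (⊥ : SimpleGraph (Fin 2)) X5) ∧ ¬ Apex Y ∧
    ¬ Nonempty (Y ≃g jn (⊥ : SimpleGraph (Fin 2)) X5)) ∧
  (∃ Y : SimpleGraph (Fin 10), IsMinor Y (jn (⊥ : SimpleGraph (Fin 2)) X6) ∧ ¬ Apex Y ∧
    ¬ Nonempty (Y ≃g jn (⊥ : SimpleGraph (Fin 2)) X6))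

/-- FCO (hypotheses StTrn, StJnm, StFex).  Done by helper51. -/
def StFco : Prop :=
  (∀ (W : Type) [Finite W] (H : SimpleGraph W),
    (IsMinor H E1 → ¬ Nonempty (H ≃g E1) → Apex H) ∧ (IsMinor H E2 → ¬ Nonempty (H ≃g E2) → Apex H) ∧
    (IsMinor H E3 → ¬ Nonempty (H ≃g E3) → Apex H) ∧ (IsMinor H E4 → ¬ Nonempty (H ≃g E4) → Apex H)) ∧
  (∀ (W : Type) [Finite W] (H : SimpleGraph W),
    (IsMinor H (⊤ : SimpleGraph (Fin 5)) → ¬ Nonempty (H ≃g (⊤ : SimpleGraph (Fin 5))) → Planar H) ∧
    (IsMinor H (completeBipartiteGraph (Fin 3) (Fin 3)) →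
      ¬ Nonempty (H ≃g completeBipartiteGraph (Fin 3) (Fin 3)) → Planar H))

/-! ### assembly -/

/-- AS1 (hypotheses StTrn, StJnm, StFna).  `G` has a vertex `a` adjacent to all others.  Proof.  `G` is not apex, so `G.induce {a}ᶜ` is not planar.  If it has a `K₅` minor then `E1 = K₆` is a
minor of `G` (branch set `{a}` in addition); if it has a `K₃,₃` minor then `E2` is a minor of `G`.  These are not apex (StFna), so they are isomorphic to `G` by `ExMinor G`. -/
def StAsa : Prop := ∀ (V : Type) [Finite V] (G : SimpleGraph V) (a : V), ExMinor G → (∀ b, b ≠ a → G.Adj a b) →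
  Nonempty (E1 ≃g G) ∨ Nonempty (E2 ≃g G)

/-- ASB (hypotheses StTrn, StJnm, StPla, StPlb, StMth, StFna, StAsa).  `G = jn ⊥ B`.  Proof.  Let `V = {a₁, a₂} ∪ V'`, `B = G.induce V'`; `G` is isomorphic to `jn (⊥ : SimpleGraph (Fin 2)) B`.
(If you like, prove the statement for `jn (⊥ : SimpleGraph (Fin 2)) B`, and transport.)  If `X` is a minor of `B` then `jn ⊥ X` is a minor of `G` (StJnm (1)).
If `B` has the minor `X1`: `E1` is a minor of `G`, not apex, so isomorphic to `G`.  `X2`, `X3`: `E2`.  `X4`: `E4`.  `X5`: let `Y` be as in StFna; `Y` is a minor of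
`jn ⊥ X5`, which is a minor of `G`; `Y` is not apex, so `Y ≃g G`; `jn ⊥ X5` is not apex (StJnm (2)), so `jn ⊥ X5 ≃g G`; so `Y ≃g jn ⊥ X5`, contradiction.  `X6`: the same.
If none of them is a minor of `B`: if `B` has no `K₄` and no `K₂,₃` minor then `G.induce {a₁}ᶜ`, isomorphic to `jn ⊤ B` over `Fin 1`, is planar (StPla), contradiction.
Otherwise StMth gives `w ∈ V'` with `Cyc (B.induce {w}ᶜ)` and `G.induce {w}ᶜ`, isomorphic to `jn ⊥ (B.induce {w}ᶜ)`, is planar by StPlb (1), contradiction. -/
def StAsb : Prop := ∀ (V : Type) [Finite V] (G : SimpleGraph V) (a₁ a₂ : V), ExMinor G → a₁ ≠ a₂ → ¬ G.Adj a₁ a₂ →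
  (∀ b, b ≠ a₁ → b ≠ a₂ → G.Adj a₁ b ∧ G.Adj a₂ b) →
  Nonempty (E1 ≃g G) ∨ Nonempty (E2 ≃g G) ∨ Nonempty (E4 ≃g G)

/-- ASC (hypotheses StTrn, StJnm, StAcy, StPlb, StFna).  `|A| = 3`.  Proof.  In each case some `E` is found as a minor of `G`; it is not apex (StFna), so isomorphic to `G`.
`|Aᶜ| = 3`: for `x ≠ y` take `v ≠ x, y`; `G.induce {v}ᶜ` is not planar and has five vertices, so the five branch sets of a `K₅` minor are single vertices (a `K₃,₃` minor needs six vertices) and all
pairs are adjacent.  So `G = K₆ ≃g E1`.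
`|Aᶜ| ≥ 4`, `A = {a₁, a₂, a₃}`, `B = G.induce Aᶜ`.  If some `b ∈ Aᶜ` has three neighbours `b₁, b₂, b₃ ∈ Aᶜ`: `E2` is a subgraph (`b` is adjacent to all `a_i`, `b_j`; `a_i` to `b_j`).
Otherwise all degrees of `B` are at most two.  If `B` is acyclic: `G.induce {a₃}ᶜ` is isomorphic to a subgraph of `jn ⊤ B` over `Fin 2`, planar by StPlb (2) and StJnm (3): contradiction.
If `B` is not acyclic and not connected: `B` has the minor `⊤ ⊕g ⊤` (StAcy (3)) and `G` has the minor `E3` (`jn ⊥` over `Fin 3`; `G` contains `jn ⊥ B`).  If `B` is connected, not acyclic: if some `a_i, a_j` are not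
adjacent then, with `a_k` the third one, `G.induce {a_k}ᶜ` is isomorphic to `jn ⊥ B` over `Fin 2`, planar by StPlb (1): contradiction.  Otherwise `A` is a triangle, `B` has a triangle as a minor (StAcy (2)), so
`G` has the minor `K₆ = E1` (`jn` of two triangles). -/
def StAsc : Prop := ∀ (V : Type) [Finite V] (G : SimpleGraph V) (A : Set V), ExMinor G → Cpl G A → A.ncard = 3 →
  3 ≤ Aᶜ.ncard → Nonempty (E1 ≃g G) ∨ Nonempty (E2 ≃g G) ∨ Nonempty (E3 ≃g G)

/-- ASD (hypotheses StTrn, StFna, StAsa, StAsb, StAsc).  Proof.  `Gᶜ` is not preconnected: there is a set `A` (a connected component of `Gᶜ`), nonempty with nonempty complement, with `Cpl G A`; also `Cpl G Aᶜ`;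
exchanging we may assume `|A| ≤ |Aᶜ|`.  `|A| = 1`: StAsa.  `|A| = 2`, `A = {a₁, a₂}`: if `a₁, a₂` are adjacent then `a₁` is adjacent to all others: StAsa; otherwise StAsb.  `|A| = 3`: StAsc.
`|A| ≥ 4`: choose `a₀, ..., a₃ ∈ A`, `b₀, ..., b₃ ∉ A`; `E2 = K₁,₃,₃` is a minor of `G` with the branch sets `{a₀, b₀}`, `{a_i}`, `{b_i}` (`i = 1, 2, 3`), not apex (StFna), so isomorphic to `G`. -/
def StAsd : Prop := ∀ (V : Type) [Finite V] (G : SimpleGraph V), ExMinor G → ¬ Gᶜ.Preconnected →
  Nonempty (E1 ≃g G) ∨ Nonempty (E2 ≃g G) ∨ Nonempty (E3 ≃g G) ∨ Nonempty (E4 ≃g G)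

/-- DSA (hypotheses StTrn, StJnm).  Disconnected excluded minors.  Proof. (0) A disjoint union `P ⊕g Q` of planar graphs is planar: the branch sets of `K₅` (or `K₃,₃`) are connected and touch each other along
a connected graph, so all are on the same side.  More generally, if `A : Set V` has no edges to its complement, `G.induce A` and `G.induce Aᶜ` are planar then `G` is planar.
(1) `K` not planar, `L` not planar: `K ⊕g L` is not apex: it is not planar, and deleting a vertex of one side leaves the other side.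
(2) Let `A` be nonempty with nonempty complement and no edges between them (`G` not preconnected).  If `G.induce A` is planar then `G.induce Aᶜ` is not apex (otherwise a vertex `b ∉ A` (or none) can be deleted with
planar rest, and `G` minus `b` is planar by (0), so `G` is apex); but it is a minor of `G` not isomorphic to `G` (fewer vertices): contradiction to `ExMinor G`.  So both are not planar, and each has a `K₅` or
`K₃,₃` minor, so for some `K, L` among these two graphs `K ⊕g L` is a minor of `G`, not apex by (1), so isomorphic to `G`. -/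
def StDsa : Prop := ∀ (V : Type) [Finite V] (G : SimpleGraph V), ExMinor G → ¬ G.Preconnected →
  Nonempty ((⊤ : SimpleGraph (Fin 5)) ⊕g (⊤ : SimpleGraph (Fin 5)) ≃g G) ∨
  Nonempty ((⊤ : SimpleGraph (Fin 5)) ⊕g (completeBipartiteGraph (Fin 3) (Fin 3)) ≃g G) ∨
  Nonempty ((completeBipartiteGraph (Fin 3) (Fin 3)) ⊕g (completeBipartiteGraph (Fin 3) (Fin 3)) ≃g G)

/-- DSB (hypotheses StTrn, StJnm).  Proof.  Let `K, L` be excluded minors of the class of planar graphs (second hypothesis) such that all `K` minus a vertex are planar -- this follows: `K.induce {v}ᶜ` is a minor of `K`, not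
isomorphic to `K`.  Not apex: as in DSA (1).  Let `H` be a minor of `K ⊕g L`, not isomorphic to it, with branch sets `φ`.  Each `φ w` is connected, so on one side; let `W₁ = {w | φ w is on the left}`.  There are no edges of `H`
between `W₁` and its complement `W₂`, `H.induce W₁` is a minor of `K`, `H.induce W₂` is a minor of `L`.  If both are isomorphic to `K`, `L` then `H ≃g K ⊕g L`, contradiction.  Say `H.induce W₁` is not isomorphic to
`K`, so it is planar.  If `W₂` is empty then `H` is planar.  Otherwise let `w ∈ W₂`; `H.induce (W₂ \ {w})` is a minor of `L` and has fewer vertices than `L` or (if `W₂` has as many vertices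
as `L`) is not isomorphic to `L`: in any case `|W₂ \ {w}| < |W₂| ≤ |L|`, so it is not isomorphic to `L`, so planar.  So `H.induce {w}ᶜ` is planar by the fact (0) of DSA: `H` is apex. -/
def StDsb : Prop := ∀ (U V : Type) [Finite U] [Finite V] (K : SimpleGraph U) (L : SimpleGraph V),
  ¬ Planar K → ¬ Planar L →
  (∀ (W : Type) [Finite W] (H : SimpleGraph W), (IsMinor H K → ¬ Nonempty (H ≃g K) → Planar H) ∧
    (IsMinor H L → ¬ Nonempty (H ≃g L) → Planar H)) → ExMinor (K ⊕g L)

end Pool.Agent.Helper51.AJ
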